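import Pool.Agent.W837.GB.Defs

/-! Project GB: capacity of block triangular tuples is multiplicative. -/

set_option autoImplicit false
open MeasureTheory ProbabilityTheory Filter Topology
open scoped NNReal Matrix ComplexOrder

namespace Pool.Agent.W440.GB

open Pool.Agent.W837.GB

section lin

variable {ι : Type} [Fintype ι] [DecidableEq ι]

open scoped MatrixOrder in
theorem psd_factor (A : Matrix ι ι ℂ) (hA : A.PosSemidef) : ∃ R : Matrix ι ι ℂ, A = Rᴴ * R := by
  obtain ⟨R, hR⟩ := CStarAlgebra.nonneg_iff_eq_star_mul_self.mp hA.nonneg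
  exact ⟨R, hR⟩

theorem det_real (A : Matrix ι ι ℂ) (hA : A.PosSemidef) : A.det = ((A.det.re : ℝ) : ℂ) := by
  have h := hA.det_nonneg
  rw [Complex.le_def] at h
  apply Complex.ext
  · simp
  · simpa using h.2.symm

theorem det_re_nonneg (A : Matrix ι ι ℂ) (hA : A.PosSemidef) : 0 ≤ A.det.re := by
  have h := hA.det_nonneg
  rw [Complex.le_def] at h
  simpa using h.1

theorem det_re_pos (A : Matrix ι ι ℂ) (hA : A.PosDef) : 0 < A.det.re := by
  have h := hA.det_pos
  rw [Complex.lt_def] at h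
  simpa using h.1

theorem posDef_of_re (A : Matrix ι ι ℂ) (hA : A.PosSemidef) (h : 0 < A.det.re) : A.PosDef := by
  rw [hA.posDef_iff_det_ne_zero]
  intro h0
  rw [h0] at h
  simp at h

theorem det_one_add_ge (Z : Matrix ι ι ℂ) (hZ : Z.PosSemidef) : 1 ≤ (1 + Z).det.re := by
  have hH : (1 + Z).IsHermitian := Matrix.isHermitian_one.add hZ.1
  have h : ∀ i, 1 ≤ hH.eigenvalues i := by
    intro i
    rw [hH.eigenvalues_eq, Matrix.add_mulVec, dotProduct_add, map_add, Matrix.one_mulVec]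
    have h1 := hZ.re_dotProduct_nonneg (hH.eigenvectorBasis i).ofLp
    have h2 : RCLike.re (star (hH.eigenvectorBasis i).ofLp ⬝ᵥ (hH.eigenvectorBasis i).ofLp) = 1 := by
      rw [dotProduct_comm, ← EuclideanSpace.inner_eq_star_dotProduct, inner_self_eq_norm_sq_to_K,
        hH.eigenvectorBasis.orthonormal.1 i]
      simp
    linarith
  rw [hH.det_eq_prod_eigenvalues]
  have h3 : (∏ i, (hH.eigenvalues i : ℂ)) = ((∏ i, hH.eigenvalues i : ℝ) : ℂ) := by
    push_cast; rfl
  have h4 : (1 : ℝ) ≤ ∏ i, hH.eigenvalues i := by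
    calc (1 : ℝ) = ∏ _i : ι, (1 : ℝ) := by simp
      _ ≤ _ := Finset.prod_le_prod (fun _ _ => zero_le_one) fun i _ => h i
  erw [h3]
  exact h4

theorem det_mono (A Y : Matrix ι ι ℂ) (hA : A.PosDef) (hY : Y.PosSemidef) :
    A.det.re ≤ (A + Y).det.re := by
  obtain ⟨R, hR⟩ := psd_factor A hA.posSemidef
  have hdet : A.det = (starRingEnd ℂ) R.det * R.det := by
    rw [hR, Matrix.det_mul, Matrix.det_conjTranspose]
    rfl
  have hA0 := det_re_pos A hA
  have hR0 : R.det ≠ 0 := by
    intro h0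
    rw [hdet, h0] at hA0
    simp at hA0
  have hu : IsUnit R.det := isUnit_iff_ne_zero.2 hR0
  have hZ : ((R⁻¹)ᴴ * Y * R⁻¹).PosSemidef := hY.conjTranspose_mul_mul_same _
  have h1 : A + Y = Rᴴ * (1 + (R⁻¹)ᴴ * Y * R⁻¹) * R := by
    rw [Matrix.mul_add, Matrix.mul_one, Matrix.add_mul, ← hR]
    congr 1
    have e1 : Rᴴ * (R⁻¹)ᴴ = 1 := by
      rw [← Matrix.conjTranspose_mul, Matrix.nonsing_inv_mul R hu, Matrix.conjTranspose_one]
    have e2 : R⁻¹ * R = 1 := Matrix.nonsing_inv_mul R hu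
    calc Y = 1 * Y * 1 := by simp
      _ = (Rᴴ * (R⁻¹)ᴴ) * Y * (R⁻¹ * R) := by rw [e1, e2]
      _ = _ := by simp only [Matrix.mul_assoc]
  have h2 : (A + Y).det = A.det * (1 + (R⁻¹)ᴴ * Y * R⁻¹).det := by
    rw [h1, Matrix.det_mul, Matrix.det_mul, Matrix.det_conjTranspose, hdet]
    simp only [starRingEnd_apply]
    ring
  have h3 := det_one_add_ge _ hZ
  rw [h2, det_real A hA.posSemidef, Complex.re_ofReal_mul]
  simp only [Complex.ofReal_re]
  nlinarith

end lin

/-! ### the completely positive map for general index types -/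

/-- `∑ a_j b a_j*` -/
noncomputable def E {n : ℕ} {ι : Type} [Fintype ι] (a : Fin n → Matrix ι ι ℂ) (b : Matrix ι ι ℂ) :
    Matrix ι ι ℂ := ∑ j, a j * b * (a j)ᴴ

theorem E_psd {n : ℕ} {ι : Type} [Fintype ι] (a : Fin n → Matrix ι ι ℂ) (b : Matrix ι ι ℂ)
    (hb : b.PosSemidef) : (E a b).PosSemidef := by
  unfold E
  exact Matrix.posSemidef_sum _ fun j _ => hb.mul_mul_conjTranspose_same _

theorem E_add {n : ℕ} {ι : Type} [Fintype ι] (a : Fin n → Matrix ι ι ℂ) (b b' : Matrix ι ι ℂ) :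
    E a (b + b') = E a b + E a b' := by
  unfold E
  rw [← Finset.sum_add_distrib]
  exact Finset.sum_congr rfl fun j _ => by rw [Matrix.mul_add, Matrix.add_mul]

theorem eta_eq {n m : ℕ} (a : Fin n → Matrix (Fin m) (Fin m) ℂ) (b : Matrix (Fin m) (Fin m) ℂ) :
    eta a b = E a b := rfl

theorem cap_le {n m : ℕ} (a : Fin n → Matrix (Fin m) (Fin m) ℂ) (b : Matrix (Fin m) (Fin m) ℂ)
    (hb : b.PosDef) : cap a ≤ (eta a b).det.re / b.det.re := by
  refine csInf_le ⟨0, ?_⟩ ⟨b, hb, rfl⟩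
  rintro c ⟨b', hb', rfl⟩
  exact div_nonneg (det_re_nonneg _ (E_psd a b' hb'.posSemidef)) (det_re_pos _ hb').le

theorem cap_mul_le {n m : ℕ} (a : Fin n → Matrix (Fin m) (Fin m) ℂ)
    (b : Matrix (Fin m) (Fin m) ℂ) (hb : b.PosDef) : cap a * b.det.re ≤ (eta a b).det.re := by
  have := cap_le a b hb
  rwa [le_div_iff₀ (det_re_pos _ hb)] at this

theorem le_cap {n m : ℕ} (a : Fin n → Matrix (Fin m) (Fin m) ℂ) (x : ℝ)
    (h : ∀ b : Matrix (Fin m) (Fin m) ℂ, b.PosDef → x ≤ (eta a b).det.re / b.det.re) :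
    x ≤ cap a := by
  refine le_csInf ⟨_, 1, Matrix.PosDef.one, rfl⟩ ?_
  rintro c ⟨b, hb, rfl⟩
  exact h b hb

section blocks

variable {n p q : ℕ} (a' : Fin n → Matrix (Fin p) (Fin p) ℂ)
  (c : Fin n → Matrix (Fin p) (Fin q) ℂ) (a'' : Fin n → Matrix (Fin q) (Fin q) ℂ)

/-- the block triangular tuple -/
def AB (j : Fin n) : Matrix (Fin p ⊕ Fin q) (Fin p ⊕ Fin q) ℂ :=
  Matrix.fromBlocks (a' j) (c j) 0 (a'' j)

theorem sum_fromBlocks {α : Type} (s : Finset α) (f11 : α → Matrix (Fin p) (Fin p) ℂ)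
    (f12 : α → Matrix (Fin p) (Fin q) ℂ) (f21 : α → Matrix (Fin q) (Fin p) ℂ)
    (f22 : α → Matrix (Fin q) (Fin q) ℂ) :
    ∑ j ∈ s, Matrix.fromBlocks (f11 j) (f12 j) (f21 j) (f22 j)
      = Matrix.fromBlocks (∑ j ∈ s, f11 j) (∑ j ∈ s, f12 j) (∑ j ∈ s, f21 j) (∑ j ∈ s, f22 j) := by
  classical
  induction s using Finset.induction_on with
  | empty => simp
  | insert x s hx ih =>
    simp only [Finset.sum_insert hx, ih, Matrix.fromBlocks_add]

theorem E_blocks (b11 : Matrix (Fin p) (Fin p) ℂ) (b12 : Matrix (Fin p) (Fin q) ℂ)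
    (b21 : Matrix (Fin q) (Fin p) ℂ) (b22 : Matrix (Fin q) (Fin q) ℂ) :
    E (AB a' c a'') (Matrix.fromBlocks b11 b12 b21 b22)
      = Matrix.fromBlocks
        (∑ j, ((a' j * b11 + c j * b21) * (a' j)ᴴ + (a' j * b12 + c j * b22) * (c j)ᴴ))
        (∑ j, (a' j * b12 + c j * b22) * (a'' j)ᴴ)
        (∑ j, (a'' j * b21 * (a' j)ᴴ + a'' j * b22 * (c j)ᴴ))
        (∑ j, a'' j * b22 * (a'' j)ᴴ) := by
  unfold E AB
  rw [← sum_fromBlocks]
  refine Finset.sum_congr rfl fun j _ => ?_
  rw [Matrix.fromBlocks_conjTranspose, Matrix.fromBlocks_multiply, Matrix.fromBlocks_multiply]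
  simp

theorem ge_part (h1 : 0 < cap a') (h2 : 0 < cap a'')
    (B : Matrix (Fin p ⊕ Fin q) (Fin p ⊕ Fin q) ℂ) (hB : B.PosDef) :
    cap a' * cap a'' * B.det.re ≤ (E (AB a' c a'') B).det.re := by
  set b11 := B.toBlocks₁₁ with hb11
  set b12 := B.toBlocks₁₂ with hb12
  set b22 := B.toBlocks₂₂ with hb22
  have hBb : B = Matrix.fromBlocks b11 b12 b12ᴴ b22 := by
    have h21 : B.toBlocks₂₁ = b12ᴴ := by
      ext i j
      have := hB.1
      have h3 := congrFun (congrFun this (Sum.inr i)) (Sum.inl j)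
      rw [Matrix.conjTranspose_apply] at h3
      simp only [hb12, Matrix.conjTranspose_apply, Matrix.toBlocks₂₁, Matrix.toBlocks₁₂,
        Matrix.of_apply]
      exact h3.symm
    rw [← h21]
    exact (Matrix.fromBlocks_toBlocks B).symm
  have hp22 : b22.PosDef := hB.submatrix (e := Sum.inr) Sum.inr_injective
  haveI : Invertible b22 := hp22.isUnit.invertible
  set S := b11 - b12 * b22⁻¹ * b12ᴴ with hS
  have hSp : S.PosSemidef := by
    rw [hS, ← Matrix.PosDef.fromBlocks₂₂ b11 b12 hp22, ← hBb]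
    exact hB.posSemidef
  have hdet : B.det = b22.det * S.det := by
    conv_lhs => rw [hBb]
    rw [Matrix.det_fromBlocks₂₂, Matrix.invOf_eq_nonsing_inv]
  have hSd : S.PosDef := by
    rw [hSp.posDef_iff_det_ne_zero]
    intro h0
    have h3 := det_re_pos B hB
    rw [hdet, h0] at h3
    simp at h3
  set B0 : Matrix (Fin p ⊕ Fin q) (Fin p ⊕ Fin q) ℂ :=
    Matrix.fromBlocks (b12 * b22⁻¹ * b12ᴴ) b12 b12ᴴ b22 with hB0
  have hB0p : B0.PosSemidef := by
    rw [hB0, Matrix.PosDef.fromBlocks₂₂ _ b12 hp22, sub_self]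
    exact Matrix.PosSemidef.zero
  have hsplit : B = Matrix.fromBlocks S 0 0 0 + B0 := by
    rw [hB0, Matrix.fromBlocks_add, hS]
    simpa using hBb
  have hES : E (AB a' c a'') (Matrix.fromBlocks S 0 0 0)
      = Matrix.fromBlocks (eta a' S) 0 0 0 := by
    rw [E_blocks]
    simp [eta]
  set X := E (AB a' c a'') B0 with hX
  have hXp : X.PosSemidef := E_psd _ _ hB0p
  set X11 := X.toBlocks₁₁ with hX11
  set X12 := X.toBlocks₁₂ with hX12
  have hX22 : X.toBlocks₂₂ = eta a'' b22 := by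
    rw [hX, hB0, E_blocks, Matrix.toBlocks_fromBlocks₂₂]
    rfl
  have hXb : X = Matrix.fromBlocks X11 X12 X12ᴴ (eta a'' b22) := by
    have h21 : X.toBlocks₂₁ = X12ᴴ := by
      ext i j
      have := hXp.1
      have h3 := congrFun (congrFun this (Sum.inr i)) (Sum.inl j)
      rw [Matrix.conjTranspose_apply] at h3
      simp only [hX12, Matrix.conjTranspose_apply, Matrix.toBlocks₂₁, Matrix.toBlocks₁₂,
        Matrix.of_apply]
      exact h3.symm
    rw [← h21, ← hX22]
    exact (Matrix.fromBlocks_toBlocks X).symm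
  have d22 := cap_mul_le a'' b22 hp22
  have dS := cap_mul_le a' S hSd
  have p22 := det_re_pos _ hp22
  have pS := det_re_pos _ hSd
  have hep22 : (eta a'' b22).PosDef := posDef_of_re _ (E_psd _ _ hp22.posSemidef)
    (lt_of_lt_of_le (mul_pos h2 p22) d22)
  have hepS : (eta a' S).PosDef := posDef_of_re _ (E_psd _ _ hSd.posSemidef)
    (lt_of_lt_of_le (mul_pos h1 pS) dS)
  haveI : Invertible (eta a'' b22) := hep22.isUnit.invertible
  have hY : (X11 - X12 * (eta a'' b22)⁻¹ * X12ᴴ).PosSemidef := by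
    rw [← Matrix.PosDef.fromBlocks₂₂ X11 X12 hep22, ← hXb]
    exact hXp
  have hEB : (E (AB a' c a'') B).det
      = (eta a'' b22).det * (eta a' S + (X11 - X12 * (eta a'' b22)⁻¹ * X12ᴴ)).det := by
    have e1 : E (AB a' c a'') B = Matrix.fromBlocks (eta a' S + X11) X12 X12ᴴ (eta a'' b22) := by
      conv_lhs => rw [hsplit]
      rw [E_add, hES, ← hX]
      conv_lhs => rw [hXb]
      rw [Matrix.fromBlocks_add]
      simp
    rw [e1, Matrix.det_fromBlocks₂₂, Matrix.invOf_eq_nonsing_inv, add_sub_assoc]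
  rw [hEB, hdet, det_real _ hep22.posSemidef, det_real _ hp22.posSemidef,
    Complex.re_ofReal_mul, Complex.re_ofReal_mul]
  have h5 := det_mono _ _ hepS hY
  have h6 : cap a' * S.det.re ≤ (eta a' S + (X11 - X12 * (eta a'' b22)⁻¹ * X12ᴴ)).det.re :=
    dS.trans h5
  calc cap a' * cap a'' * (b22.det.re * S.det.re)
      = (cap a'' * b22.det.re) * (cap a' * S.det.re) := by ring
    _ ≤ (eta a'' b22).det.re * (eta a' S + (X11 - X12 * (eta a'' b22)⁻¹ * X12ᴴ)).det.re :=
      mul_le_mul d22 h6 (by positivity) (det_re_nonneg _ hep22.posSemidef)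

theorem le_part (x : ℝ)
    (hx : ∀ B : Matrix (Fin p ⊕ Fin q) (Fin p ⊕ Fin q) ℂ, B.PosDef →
      x ≤ (E (AB a' c a'') B).det.re / B.det.re) (h2 : 0 < cap a'')
    (b' : Matrix (Fin p) (Fin p) ℂ) (b'' : Matrix (Fin q) (Fin q) ℂ) (hb' : b'.PosDef)
    (hb'' : b''.PosDef) :
    x ≤ ((eta a' b').det.re / b'.det.re) * ((eta a'' b'').det.re / b''.det.re) := by
  set C1 : Matrix (Fin p) (Fin p) ℂ := ∑ j, c j * b'' * (c j)ᴴ with hC1
  set C2 : Matrix (Fin p) (Fin q) ℂ := ∑ j, c j * b'' * (a'' j)ᴴ with hC2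
  set C3 : Matrix (Fin q) (Fin p) ℂ := ∑ j, a'' j * b'' * (c j)ᴴ with hC3
  have d22 := cap_mul_le a'' b'' hb''
  have p22 := det_re_pos _ hb''
  have p11 := det_re_pos _ hb'
  have hep22 : (eta a'' b'').PosDef := posDef_of_re _ (E_psd _ _ hb''.posSemidef)
    (lt_of_lt_of_le (mul_pos h2 p22) d22)
  haveI : Invertible (eta a'' b'') := hep22.isUnit.invertible
  set X : Matrix (Fin p) (Fin p) ℂ := C1 - C2 * (eta a'' b'')⁻¹ * C3 with hX
  have key : ∀ t : ℝ, 0 < t → x ≤ ((eta a' b' + (t : ℂ) • X).det.re / b'.det.re) *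
      ((eta a'' b'').det.re / b''.det.re) := by
    intro t ht
    have htc : (t : ℂ) ≠ 0 := by exact_mod_cast ht.ne'
    set Bt : Matrix (Fin p ⊕ Fin q) (Fin p ⊕ Fin q) ℂ :=
      Matrix.fromBlocks b' 0 0 ((t : ℂ) • b'') with hBt
    have htb : ((t : ℂ) • b'').PosDef := hb''.smul (by exact_mod_cast ht)
    have hBdet : Bt.det = b'.det * ((t : ℂ) ^ q * b''.det) := by
      rw [hBt, Matrix.det_fromBlocks_zero₁₂, Matrix.det_smul, Fintype.card_fin]
    have hBre : Bt.det.re = b'.det.re * (t ^ q * b''.det.re) := by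
      rw [hBdet, det_real _ hb'.posSemidef, det_real _ hb''.posSemidef]
      norm_cast
    have hBp : Bt.PosDef := by
      haveI : Invertible ((t : ℂ) • b'') := htb.isUnit.invertible
      refine posDef_of_re _ ?_ ?_
      · have h5 := (Matrix.PosDef.fromBlocks₂₂ b' 0 htb).2 (by simpa using hb'.posSemidef)
        simpa [hBt] using h5
      · rw [hBre]; positivity
    have hE : E (AB a' c a'') Bt = Matrix.fromBlocks 1 0 0 ((t : ℂ) • 1) *
        Matrix.fromBlocks (eta a' b' + (t : ℂ) • C1) ((t : ℂ) • C2) C3 (eta a'' b'') := by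
      rw [hBt, E_blocks, Matrix.fromBlocks_multiply]
      congr 1
      · simp only [Matrix.mul_zero, add_zero, zero_add, Matrix.one_mul, Matrix.zero_mul, eta, hC1,
          Finset.smul_sum, ← Finset.sum_add_distrib]
        refine Finset.sum_congr rfl fun j _ => ?_
        rw [Matrix.mul_smul, Matrix.smul_mul]
      · simp only [Matrix.mul_zero, add_zero, zero_add, Matrix.one_mul, Matrix.zero_mul, hC2,
          Finset.smul_sum]
        refine Finset.sum_congr rfl fun j _ => ?_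
        rw [Matrix.mul_smul, Matrix.smul_mul]
      · simp only [Matrix.mul_zero, add_zero, zero_add, Matrix.one_mul, Matrix.zero_mul, hC3,
          Matrix.smul_mul, Finset.smul_sum]
        refine Finset.sum_congr rfl fun j _ => ?_
        rw [Matrix.mul_smul, Matrix.smul_mul]
      · simp only [Matrix.mul_zero, add_zero, zero_add, Matrix.one_mul, Matrix.zero_mul, eta,
          Matrix.smul_mul, Finset.smul_sum]
        refine Finset.sum_congr rfl fun j _ => ?_
        rw [Matrix.mul_smul, Matrix.smul_mul]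
    have hEdet : (E (AB a' c a'') Bt).det
        = (t : ℂ) ^ q * ((eta a'' b'').det * (eta a' b' + (t : ℂ) • X).det) := by
      rw [hE, Matrix.det_mul, Matrix.det_fromBlocks_zero₁₂, Matrix.det_one, one_mul,
        Matrix.det_smul, Matrix.det_one, mul_one, Fintype.card_fin, Matrix.det_fromBlocks₂₂,
        Matrix.invOf_eq_nonsing_inv]
      congr 3
      rw [hX, smul_sub, Matrix.smul_mul, Matrix.smul_mul, add_sub_assoc]
    have hEre : (E (AB a' c a'') Bt).det.re
        = t ^ q * ((eta a'' b'').det.re * (eta a' b' + (t : ℂ) • X).det.re) := by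
      rw [hEdet, det_real _ hep22.posSemidef, ← Complex.ofReal_pow, Complex.re_ofReal_mul,
        Complex.re_ofReal_mul]
      simp
    have h5 := hx Bt hBp
    rw [hEre, hBre] at h5
    refine h5.trans (le_of_eq ?_)
    have htq : t ^ q ≠ 0 := by positivity
    field_simp
  have hcont : Continuous fun t : ℝ => ((eta a' b' + (t : ℂ) • X).det.re / b'.det.re) *
      ((eta a'' b'').det.re / b''.det.re) := by
    have : Continuous fun t : ℝ => (eta a' b' + (t : ℂ) • X).det := by
      apply Continuous.matrix_det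
      fun_prop
    exact ((Complex.continuous_re.comp this).div_const _).mul_const _
  have hlim := (hcont.tendsto 0).mono_left (nhdsWithin_le_nhds (s := Set.Ioi 0))
  have h6 := ge_of_tendsto hlim (by
    filter_upwards [self_mem_nhdsWithin] with t ht
    exact key t ht)
  simpa using h6

end blocks

theorem capm : S_CAPM := by
  intro n p q a' c a'' m e a hp hq ha h1 h2
  have hEq : ∀ B : Matrix (Fin p ⊕ Fin q) (Fin p ⊕ Fin q) ℂ,
      eta a (Matrix.reindex e e B) = Matrix.reindex e e (E (AB a' c a'') B) := by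
    intro B
    unfold eta E
    have hs : Matrix.reindex e e (∑ j, AB a' c a'' j * B * (AB a' c a'' j)ᴴ)
        = ∑ j, Matrix.reindex e e (AB a' c a'' j * B * (AB a' c a'' j)ᴴ) := by
      ext x y
      simp [Matrix.sum_apply]
    rw [hs]
    refine Finset.sum_congr rfl fun j _ => ?_
    rw [ha j]
    simp only [Matrix.reindex_apply, AB, Matrix.conjTranspose_submatrix]
    rw [Matrix.submatrix_mul_equiv, Matrix.submatrix_mul_equiv]
  have hle : ∀ B : Matrix (Fin p ⊕ Fin q) (Fin p ⊕ Fin q) ℂ, B.PosDef →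
      cap a ≤ (E (AB a' c a'') B).det.re / B.det.re := by
    intro B hB
    have h3 := cap_le a (Matrix.reindex e e B) (hB.submatrix e.symm.injective)
    rw [hEq, Matrix.det_reindex_self, Matrix.det_reindex_self] at h3
    exact h3
  apply le_antisymm
  · -- upper bound
    have h5 : ∀ b'' : Matrix (Fin q) (Fin q) ℂ, b''.PosDef →
        cap a ≤ cap a' * ((eta a'' b'').det.re / b''.det.re) := by
      intro b'' hb''
      have hr : 0 < (eta a'' b'').det.re / b''.det.re := lt_of_lt_of_le h2 (cap_le a'' b'' hb'')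
      rw [← div_le_iff₀ hr]
      apply le_cap
      intro b' hb'
      rw [div_le_iff₀ hr]
      exact le_part a' c a'' (cap a) hle h2 b' b'' hb' hb''
    have h6 : cap a / cap a' ≤ cap a'' := by
      apply le_cap
      intro b'' hb''
      rw [div_le_iff₀ h1, mul_comm]
      exact h5 b'' hb''
    rw [div_le_iff₀ h1] at h6
    linarith
  · apply le_cap
    intro b hb
    have hb2 : b = Matrix.reindex e e (Matrix.reindex e.symm e.symm b) := by
      ext x y; simp
    have hB : (Matrix.reindex e.symm e.symm b).PosDef := hb.submatrix e.symm.symm.injective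
    have h3 := ge_part a' c a'' h1 h2 _ hB
    rw [le_div_iff₀ (det_re_pos b hb)]
    conv_rhs => rw [hb2, hEq, Matrix.det_reindex_self]
    rw [Matrix.det_reindex_self] at h3
    exact h3

end Pool.Agent.W440.GB
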