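import Pool.Agent.W837.GB.Defs

/-! Project GB: small ball estimate for polynomials of Gaussian variables. -/

set_option autoImplicit false
open MeasureTheory ProbabilityTheory Filter Topology
open scoped NNReal Matrix ComplexOrder

namespace Pool.Agent.W440.GB

open Pool.Agent.W837.GB

/-- restriction of `P` to the line `p + t q` -/
noncomputable def line {ι : Type} (P : MvPolynomial ι ℂ) (p q : ι → ℂ) : Polynomial ℂ :=
  MvPolynomial.aeval (fun i => Polynomial.C (p i) + Polynomial.C (q i) * Polynomial.X) P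

theorem line_eval {ι : Type} (P : MvPolynomial ι ℂ) (p q : ι → ℂ) (t : ℂ) :
    (line P p q).eval t = MvPolynomial.eval (fun i => p i + q i * t) P := by
  unfold line
  have h : (Polynomial.aeval t) (MvPolynomial.aeval
      (fun i => Polynomial.C (p i) + Polynomial.C (q i) * Polynomial.X) P)
      = MvPolynomial.aeval (fun i => p i + q i * t) P := by
    rw [← AlgHom.comp_apply]
    congr 1
    apply MvPolynomial.algHom_ext
    intro i
    simp
  rw [← Polynomial.coe_aeval_eq_eval, h]
  rw [MvPolynomial.aeval_eq_eval]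

theorem line_deg {ι : Type} (P : MvPolynomial ι ℂ) (p q : ι → ℂ) (d : ℕ) (h : P.totalDegree ≤ d) :
    (line P p q).natDegree ≤ d := by
  have := MvPolynomial.aeval_natDegree_le (n := 1) P h
    (fun i => Polynomial.C (p i) + Polynomial.C (q i) * Polynomial.X) (fun i => by
      compute_degree)
  simpa [line] using this

instance gam_prob (ι : Type) [Fintype ι] : IsProbabilityMeasure (gam ι) := by
  unfold gam; infer_instance

theorem ev_cont {ι : Type} (P : MvPolynomial ι ℂ) :
    Continuous fun x : ι → ℂ => MvPolynomial.eval x P := by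
  exact MvPolynomial.continuous_eval P

theorem core {ι : Type} [Fintype ι] (h1 : S_SB1) (h3 : S_SB3) (P : MvPolynomial ι ℂ) (d : ℕ)
    (x1 : ι → ℝ) (h s : ℝ) (hd : 1 ≤ d) (hP : P.totalDegree ≤ d) (hh : 0 < h) (hh1 : h ≤ 1)
    (hs : 0 < s) (hs1 : s ≤ 1) (hx : h * (Fintype.card ι + ∑ i, (x1 i) ^ 2) ≤ 1) :
    (gam ι).real {x | ‖MvPolynomial.eval (fun i => ((x i : ℝ) : ℂ)) P‖ <
      (h * s / (8 * d)) ^ d * ‖MvPolynomial.eval (fun i => ((x1 i : ℝ) : ℂ)) P‖} ≤ 3 * s := by
  set lam := (h * s / (8 * d)) ^ d * ‖MvPolynomial.eval (fun i => ((x1 i : ℝ) : ℂ)) P‖ with hlam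
  set S : Set (ι → ℝ) := {x | ‖MvPolynomial.eval (fun i => ((x i : ℝ) : ℂ)) P‖ < lam} with hS
  have hPc : Continuous fun x : ι → ℝ => MvPolynomial.eval (fun i => ((x i : ℝ) : ℂ)) P := by
    refine (ev_cont P).comp ?_
    fun_prop
  have hSm : MeasurableSet S := (isOpen_lt hPc.norm continuous_const).measurableSet
  set A : Set ((ι → ℝ) × ℝ) := {y | y.2 ∈ Set.Icc 1 (1 + h) ∧
    (fun i => y.2 * y.1 i + (1 - y.2) * x1 i) ∈ S} with hA
  have hAm : MeasurableSet A := by
    refine MeasurableSet.inter ?_ ?_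
    · exact measurableSet_Icc.preimage measurable_snd
    · refine hSm.preimage (Continuous.measurable ?_)
      fun_prop
  -- upper bound
  have hup : ((gam ι).prod volume) A ≤ ENNReal.ofReal (s * h) := by
    rw [Measure.prod_apply hAm]
    have hb : ∀ g : ι → ℝ, volume (Prod.mk g ⁻¹' A) ≤ ENNReal.ofReal (s * h) := by
      intro g
      set φ := line P (fun i => ((x1 i : ℝ) : ℂ)) (fun i => ((g i - x1 i : ℝ) : ℂ)) with hφ
      have := h1 φ d h s hd (line_deg P _ _ d hP) hh hh1 hs hs1
      refine le_trans (measure_mono ?_) this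
      rintro t ⟨ht, ht2⟩
      refine ⟨ht, ?_⟩
      have e1 : φ.eval (t : ℂ) = MvPolynomial.eval
          (fun i => ((t * g i + (1 - t) * x1 i : ℝ) : ℂ)) P := by
        rw [hφ, line_eval]
        congr 2
        funext i
        push_cast
        ring
      have e2 : φ.eval 0 = MvPolynomial.eval (fun i => ((x1 i : ℝ) : ℂ)) P := by
        rw [hφ, line_eval]
        simp
      rw [e1, e2]
      exact ht2
    calc ∫⁻ g, volume (Prod.mk g ⁻¹' A) ∂(gam ι)
        ≤ ∫⁻ _, ENNReal.ofReal (s * h) ∂(gam ι) := lintegral_mono hb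
      _ = ENNReal.ofReal (s * h) := by rw [lintegral_const, measure_univ, mul_one]
  -- lower bound
  have hlo : (gam ι) S * ENNReal.ofReal h ≤ 3 * ((gam ι).prod volume) A := by
    rw [Measure.prod_apply_symm hAm]
    have hb : ∀ t : ℝ, (Set.Icc 1 (1 + h)).indicator (fun _ => (gam ι) S) t
        ≤ 3 * (gam ι) ((fun g => (g, t)) ⁻¹' A) := by
      intro t
      by_cases ht : t ∈ Set.Icc 1 (1 + h)
      · rw [Set.indicator_of_mem ht]
        have hsum : 0 ≤ ((Fintype.card ι : ℝ) + ∑ i, (x1 i) ^ 2) :=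
          add_nonneg (Nat.cast_nonneg _) (Finset.sum_nonneg fun i _ => sq_nonneg _)
        have h4 := h3 ι x1 t S hSm ht.1 (by
          refine le_trans (mul_le_mul_of_nonneg_right ?_ hsum) hx
          linarith [ht.2])
        have e : {g : ι → ℝ | (fun i => t * g i + (1 - t) * x1 i) ∈ S}
            = (fun g => (g, t)) ⁻¹' A := by
          ext g
          simp only [hA, Set.mem_setOf_eq, Set.mem_preimage]
          exact ⟨fun hg => ⟨ht, hg⟩, fun hg => hg.2⟩
        rw [e] at h4
        have h5 := ENNReal.ofReal_le_ofReal h4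
        rw [ENNReal.ofReal_mul (by norm_num), ofReal_measureReal, ofReal_measureReal] at h5
        simpa using h5
      · rw [Set.indicator_of_notMem ht]
        exact zero_le
    calc (gam ι) S * ENNReal.ofReal h
        = ∫⁻ t, (Set.Icc 1 (1 + h)).indicator (fun _ => (gam ι) S) t := by
          rw [lintegral_indicator measurableSet_Icc, setLIntegral_const, Real.volume_Icc]
          congr 2
          ring
      _ ≤ ∫⁻ t, 3 * (gam ι) ((fun g => (g, t)) ⁻¹' A) := lintegral_mono hb
      _ = 3 * ∫⁻ t, (gam ι) ((fun g => (g, t)) ⁻¹' A) := by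
          rw [lintegral_const_mul]
          exact measurable_measure_prodMk_right hAm
  have h6 : (gam ι) S * ENNReal.ofReal h ≤ 3 * ENNReal.ofReal (s * h) :=
    hlo.trans (mul_le_mul' le_rfl hup)
  have h7 : ENNReal.ofReal ((gam ι).real S * h) ≤ ENNReal.ofReal (3 * (s * h)) := by
    rw [ENNReal.ofReal_mul measureReal_nonneg, ofReal_measureReal,
      ENNReal.ofReal_mul (by norm_num)]
    simpa using h6
  rw [ENNReal.ofReal_le_ofReal_iff (by positivity)] at h7
  have h8 : (gam ι).real S * h ≤ (3 * s) * h := by linarith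
  exact le_of_mul_le_mul_right h8 hh

theorem sb (h1 : S_SB1) (h2 : S_SB2) (h3 : S_SB3) : S_SB := by
  refine ⟨640, by norm_num, ?_⟩
  intro ι _ P d B s z hd hP hB hz hs hs1
  set p : ι → ℂ := fun i => ((z i).re : ℂ) with hp
  set q : ι → ℂ := fun i => ((z i).im : ℂ) with hq
  obtain ⟨t, ht, hPt⟩ := h2 (line P p q) d (line_deg P p q d hP)
  rw [line_eval, line_eval] at hPt
  have ez : (fun i => p i + q i * Complex.I) = z := by
    funext i
    exact Complex.re_add_im (z i)
  rw [ez] at hPt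
  set x1 : ι → ℝ := fun i => (z i).re + t * (z i).im with hx1
  have ex : (fun i => p i + q i * (t : ℂ)) = fun i => ((x1 i : ℝ) : ℂ) := by
    funext i
    simp only [hp, hq, hx1]
    push_cast
    ring
  rw [ex] at hPt
  set c : ℝ := (Fintype.card ι : ℝ) with hc
  have hc0 : 0 ≤ c := Nat.cast_nonneg _
  have hB0 : 0 < B := by linarith
  have hB2 : 1 ≤ B ^ 2 := by nlinarith
  have hd0 : (0 : ℝ) < d := by exact_mod_cast hd
  have hx1b : ∀ i, (x1 i) ^ 2 ≤ 4 * B ^ 2 := by
    intro i
    have a1 : |(z i).re| ≤ B := (Complex.abs_re_le_norm _).trans (hz i)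
    have a2 : |(z i).im| ≤ B := (Complex.abs_im_le_norm _).trans (hz i)
    have a3 : |x1 i| ≤ 2 * B := by
      calc |x1 i| ≤ |(z i).re| + |t * (z i).im| := abs_add_le _ _
        _ = |(z i).re| + |t| * |(z i).im| := by rw [abs_mul]
        _ ≤ B + 1 * B := by gcongr
        _ = 2 * B := by ring
    have := sq_le_sq' (by linarith [abs_nonneg (x1 i)]) a3
    rw [sq_abs] at this
    linarith
  have hsum : ∑ i, (x1 i) ^ 2 ≤ c * (4 * B ^ 2) := by
    calc ∑ i, (x1 i) ^ 2 ≤ ∑ _i : ι, 4 * B ^ 2 := Finset.sum_le_sum fun i _ => hx1b i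
      _ = c * (4 * B ^ 2) := by rw [Finset.sum_const, Finset.card_univ, nsmul_eq_mul]
  set h : ℝ := 1 / (5 * B ^ 2 * (c + 1)) with hh
  have hden : 0 < 5 * B ^ 2 * (c + 1) := by positivity
  have hh0 : 0 < h := by positivity
  have hh1 : h ≤ 1 := by
    rw [hh, div_le_one hden]
    nlinarith
  have hhx : h * (Fintype.card ι + ∑ i, (x1 i) ^ 2) ≤ 1 := by
    rw [hh, one_div, inv_mul_le_iff₀ hden, mul_one]
    nlinarith
  have hcore := core h1 h3 P d x1 h s hd hP hh0 hh1 hs hs1 hhx
  refine le_trans (measureReal_mono ?_ (measure_ne_top _ _)) (hcore.trans (by nlinarith))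
  intro x hx
  rw [Set.mem_setOf_eq] at hx ⊢
  refine lt_of_lt_of_le hx ?_
  have hN : 0 ≤ ‖MvPolynomial.eval (fun i => ((x1 i : ℝ) : ℂ)) P‖ := norm_nonneg _
  calc (s / (640 * d * (c + 1) * B ^ 2)) ^ d * ‖MvPolynomial.eval z P‖
      ≤ (s / (640 * d * (c + 1) * B ^ 2)) ^ d *
        (16 ^ d * ‖MvPolynomial.eval (fun i => ((x1 i : ℝ) : ℂ)) P‖) :=
        mul_le_mul_of_nonneg_left hPt (by positivity)
    _ = (s / (640 * d * (c + 1) * B ^ 2) * 16) ^ d *
        ‖MvPolynomial.eval (fun i => ((x1 i : ℝ) : ℂ)) P‖ := by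
        rw [mul_pow]; ring
    _ = (h * s / (8 * d)) ^ d * ‖MvPolynomial.eval (fun i => ((x1 i : ℝ) : ℂ)) P‖ := by
        congr 2
        rw [hh]
        field_simp
        norm_num

end Pool.Agent.W440.GB
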